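import Mathlib

/-!
# Haar measure on a profinite group (for the module ST-MEAS of helper29)
-/

set_option autoImplicit false

namespace Pool.Agent.J6H19.ST

open MeasureTheory Filter Topology

section gen
variable {G : Type*} [Group G] [TopologicalSpace G] [IsTopologicalGroup G] [CompactSpace G]
  [MeasurableSpace G] [BorelSpace G]

theorem exists_haar : ∃ μ : Measure G, IsProbabilityMeasure μ ∧ μ.IsMulLeftInvariant ∧
    μ.Regular := by
  refine ⟨Measure.haarMeasure ⊤, ⟨?_⟩, inferInstance, inferInstance⟩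
  have h := Measure.haarMeasure_self (G := G) (K₀ := ⊤)
  rwa [TopologicalSpace.PositiveCompacts.coe_top] at h

variable (μ : Measure G) [IsProbabilityMeasure μ] [μ.IsMulLeftInvariant]

theorem fin_index (X : Set G) (hX : MeasurableSet X) (h0 : μ X ≠ 0) (H : Subgroup G)
    (hH : ∀ y, y ∉ H → μ {g | g ∈ X ∧ y * g ∈ X} = 0) : H.FiniteIndex := by
  classical
  by_contra hinf
  have hinf' : Infinite (G ⧸ H) := by
    by_contra hf
    rw [not_infinite_iff_finite] at hf
    exact hinf Subgroup.finiteIndex_of_finite_quotient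
  obtain ⟨n, hn⟩ := ENNReal.exists_nat_mul_gt h0 ENNReal.one_ne_top
  obtain ⟨s, hs⟩ := Infinite.exists_subset_card_eq (G ⧸ H) n
  let A : G ⧸ H → Set G := fun q => (fun g => (q.out)⁻¹ * g) ⁻¹' X
  have hA : ∀ q, μ (A q) = μ X := fun q => measure_preimage_mul μ _ X
  have hm : ∀ q, MeasurableSet (A q) := fun q => (measurable_const_mul _) hX
  have hd : Set.Pairwise (↑s) (Function.onFun (AEDisjoint μ) A) := by
    intro q _ q' _ hq
    show μ (A q ∩ A q') = 0
    have hy : q'.out⁻¹ * q.out ∉ H := by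
      intro hmem
      apply hq
      have h1 := QuotientGroup.eq.2 hmem
      rw [QuotientGroup.out_eq', QuotientGroup.out_eq'] at h1
      exact h1.symm
    rw [← measure_preimage_mul μ (q.out) (A q ∩ A q')]
    refine measure_mono_null ?_ (hH _ hy)
    rintro g ⟨h2, h3⟩
    have h2' : q.out⁻¹ * (q.out * g) ∈ X := h2
    have h3' : q'.out⁻¹ * (q.out * g) ∈ X := h3
    rw [inv_mul_cancel_left] at h2'
    rw [← mul_assoc] at h3'
    exact ⟨h2', h3'⟩
  have h2 := measure_biUnion_finset₀ hd (fun q _ => (hm q).nullMeasurableSet)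
  rw [Finset.sum_congr rfl (fun q _ => hA q), Finset.sum_const, hs, nsmul_eq_mul] at h2
  have h3 : μ (⋃ q ∈ s, A q) ≤ 1 := prob_le_one
  rw [h2] at h3
  exact absurd hn (not_lt.2 h3)

theorem meas_le [TotallyDisconnectedSpace G] [μ.Regular] (Good : Set G) (hcl : IsClosed Good)
    (θ : ℝ)
    (h : ∀ U : Subgroup G, U.Normal → IsOpen (U : Set G) →
      (((QuotientGroup.mk : G → G ⧸ U) '' {σ | ∀ u ∈ U, σ * u ∉ Good}).ncard : ℝ) ≤
        θ * Nat.card (G ⧸ U)) : μ Goodᶜ ≤ ENNReal.ofReal θ := by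
  classical
  rw [hcl.isOpen_compl.measure_eq_iSup_isCompact]
  refine iSup_le fun C => iSup_le fun hC => iSup_le fun hCc => ?_
  let D : OpenNormalSubgroup G → Set G := fun U => {σ | ∀ u ∈ (U : Subgroup G), σ * u ∉ Good}
  have hDsat : ∀ U : OpenNormalSubgroup G, ∀ x ∈ D U, ∀ u ∈ (U : Subgroup G), x * u ∈ D U := by
    intro U x hx u hu u' hu'
    rw [mul_assoc]
    exact hx _ ((U : Subgroup G).mul_mem hu hu')
  have hDopen : ∀ U, IsOpen (D U) := by
    intro U
    have h1 : D U = ⋃ x ∈ D U, (fun u => x * u) '' ((U : Subgroup G) : Set G) := by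
      ext y
      constructor
      · intro hy
        exact Set.mem_biUnion hy ⟨1, (U : Subgroup G).one_mem, mul_one y⟩
      · intro hy
        rw [Set.mem_iUnion₂] at hy
        obtain ⟨x, hx, u, hu, rfl⟩ := hy
        exact hDsat U x hx u hu
    rw [h1]
    refine isOpen_biUnion fun x _ => ?_
    exact (Homeomorph.mulLeft x).isOpenMap _ U.isOpen'
  have hcov : C ⊆ ⋃ U, D U := by
    intro x hx
    have h1 : (fun u => x * u) ⁻¹' Goodᶜ ∈ 𝓝 (1 : G) := by
      apply (hcl.isOpen_compl.preimage (continuous_const.mul continuous_id)).mem_nhds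
      have := hC hx
      simpa using this
    obtain ⟨s, hs1, hs2, hs3⟩ := mem_nhds_iff.1 h1
    obtain ⟨U, hU⟩ := ProfiniteGrp.exist_openNormalSubgroup_sub_open_nhds_of_one hs2 hs3
    exact Set.mem_iUnion.2 ⟨U, fun u hu => hs1 (hU hu)⟩
  have hmono : ∀ U V : OpenNormalSubgroup G, (U : Subgroup G) ≤ V → D V ⊆ D U :=
    fun U V hUV x hx u hu => hx u (hUV hu)
  have hdir : Directed (· ⊆ ·) D := by
    intro U V
    exact ⟨U ⊓ V, hmono _ _ inf_le_left, hmono _ _ inf_le_right⟩
  have hne : Nonempty (OpenNormalSubgroup G) :=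
    ⟨{ toSubgroup := ⊤, isOpen' := isOpen_univ, isNormal' := inferInstance }⟩
  obtain ⟨U₀, hU₀⟩ := hCc.elim_directed_cover D hDopen hcov hdir
  refine (measure_mono hU₀).trans ?_
  obtain ⟨U, hU⟩ : ∃ U : Subgroup G, U = (U₀ : Subgroup G) := ⟨_, rfl⟩
  have hUn : U.Normal := by rw [hU]; exact U₀.isNormal'
  have hUo : IsOpen (U : Set G) := by rw [hU]; exact U₀.isOpen'
  have hDU : D U₀ = {σ | ∀ u ∈ U, σ * u ∉ Good} := by rw [hU]
  rw [hDU]
  have h1 := h U hUn hUo
  have hfin : Finite (G ⧸ U) := Subgroup.quotient_finite_of_isOpen _ hUo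
  have hfi : U.FiniteIndex := Subgroup.finiteIndex_of_finite_quotient
  obtain ⟨E, hE⟩ : ∃ E : Set (G ⧸ U), E = (QuotientGroup.mk : G → G ⧸ U) ''
    {σ | ∀ u ∈ U, σ * u ∉ Good} := ⟨_, rfl⟩
  rw [← hE] at h1
  have hEf : E.Finite := Set.toFinite _
  have h2 : {σ | ∀ u ∈ U, σ * u ∉ Good} ⊆
      ⋃ c ∈ hEf.toFinset, (QuotientGroup.mk : G → G ⧸ U) ⁻¹' {c} := by
    intro x hx
    refine Set.mem_biUnion (x := (QuotientGroup.mk x : G ⧸ U)) ?_ rfl
    rw [Finset.mem_coe, Set.Finite.mem_toFinset, hE]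
    exact ⟨x, hx, rfl⟩
  have h3 : ∀ c : G ⧸ U, μ ((QuotientGroup.mk : G → G ⧸ U) ⁻¹' {c}) = μ (U : Set G) := by
    intro c
    induction c using QuotientGroup.induction_on with
    | H g =>
    have h4 : (QuotientGroup.mk : G → G ⧸ U) ⁻¹' {(g : G ⧸ U)} =
        (fun x => g⁻¹ * x) ⁻¹' (U : Set G) := by
      ext x
      rw [Set.mem_preimage, Set.mem_singleton_iff, Set.mem_preimage, SetLike.mem_coe,
        eq_comm, QuotientGroup.eq]
    rw [h4, measure_preimage_mul]
  have h4 := U.index_mul_measure hUo.measurableSet μ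
  rw [measure_univ] at h4
  have hcard : Nat.card (G ⧸ U) = U.index := rfl
  rw [hcard] at h1
  have h5 : μ {σ | ∀ u ∈ U, σ * u ∉ Good} ≤ E.ncard * μ (U : Set G) := by
    refine (measure_mono h2).trans ((measure_biUnion_finset_le _ _).trans ?_)
    rw [Finset.sum_congr rfl (fun c _ => h3 c), Finset.sum_const, nsmul_eq_mul,
      Set.ncard_eq_toFinset_card E hEf]
  have h6 : (E.ncard : ENNReal) ≤ ENNReal.ofReal θ * U.index := by
    have h7 := ENNReal.ofReal_le_ofReal h1
    rwa [ENNReal.ofReal_mul' (Nat.cast_nonneg _), ENNReal.ofReal_natCast,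
      ENNReal.ofReal_natCast] at h7
  calc μ {σ | ∀ u ∈ U, σ * u ∉ Good} ≤ E.ncard * μ (U : Set G) := h5
    _ ≤ (ENNReal.ofReal θ * U.index) * μ (U : Set G) := by gcongr
    _ = ENNReal.ofReal θ := by rw [mul_assoc, h4, mul_one]

theorem exists_pos (Good : Set G) (hcl : IsClosed Good)
    (hconj : ∀ g ∈ Good, ∀ x : G, x * g * x⁻¹ ∈ Good) (θ : ℝ)
    (hθ : μ Goodᶜ ≤ ENNReal.ofReal θ) (k : ℕ) (h : Fin k → G) (hk : 0 < k) (hkθ : k * θ < 2) :
    ∃ j₀, μ {g | ∀ i, i ≠ j₀ → g * h i ∈ Good} ≠ 0 := by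
  classical
  by_contra hcon
  push Not at hcon
  let B : Fin k → Set G := fun i => {g | g * h i ∉ Good}
  have hBo : ∀ i, IsOpen (B i) := fun i =>
    hcl.isOpen_compl.preimage (continuous_id.mul continuous_const)
  have hB : ∀ i, μ (B i) ≤ ENNReal.ofReal θ := by
    intro i
    have h1 : B i = (fun g => h i * g) ⁻¹' Goodᶜ := by
      ext g
      show g * h i ∉ Good ↔ h i * g ∉ Good
      rw [not_iff_not]
      constructor
      · intro hg
        have := hconj _ hg (h i)
        have e : h i * (g * h i) * (h i)⁻¹ = h i * g := by group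
        rwa [e] at this
      · intro hg
        have := hconj _ hg (h i)⁻¹
        have e : (h i)⁻¹ * (h i * g) * (h i)⁻¹⁻¹ = g * h i := by group
        rwa [e] at this
    rw [h1, measure_preimage_mul]
    exact hθ
  have hae : ∀ᵐ g ∂μ, ∀ j, g ∉ {g | ∀ i, i ≠ j → g * h i ∈ Good} :=
    ae_all_iff.2 fun j => measure_eq_zero_iff_ae_notMem.1 (hcon j)
  have hae2 : ∀ᵐ g ∂μ, (2 : ENNReal) ≤ ∑ i, (B i).indicator 1 g := by
    filter_upwards [hae] with g hg
    have h1 := hg ⟨0, hk⟩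
    push Not at h1
    obtain ⟨i₁, -, hi₁⟩ := h1
    have h2 := hg i₁
    push Not at h2
    obtain ⟨i₂, hne, hi₂⟩ := h2
    have h3 : ∑ i ∈ ({i₂, i₁} : Finset (Fin k)), (B i).indicator (1 : G → ENNReal) g = 2 := by
      rw [Finset.sum_pair hne, Set.indicator_of_mem (show g ∈ B i₂ from hi₂),
        Set.indicator_of_mem (show g ∈ B i₁ from hi₁), Pi.one_apply]
      norm_num
    rw [← h3]
    exact Finset.sum_le_sum_of_subset (Finset.subset_univ _)
  have h1 := lintegral_mono_ae hae2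
  rw [lintegral_const, measure_univ, mul_one, lintegral_finsetSum] at h1
  · have h2 : ∀ i, ∫⁻ g, (B i).indicator 1 g ∂μ = μ (B i) := fun i =>
      lintegral_indicator_one (hBo i).measurableSet
    rw [Finset.sum_congr rfl (fun i _ => h2 i)] at h1
    have h3 : ∑ i, μ (B i) ≤ ENNReal.ofReal (k * θ) := by
      refine (Finset.sum_le_sum fun i _ => hB i).trans ?_
      rw [Finset.sum_const, Finset.card_univ, Fintype.card_fin, nsmul_eq_mul,
        ENNReal.ofReal_mul (Nat.cast_nonneg _), ENNReal.ofReal_natCast]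
    have h4 := h1.trans h3
    have h5 : ENNReal.ofReal (k * θ) < 2 := by
      have : (2 : ENNReal) = ENNReal.ofReal 2 := by norm_num
      rw [this]
      exact (ENNReal.ofReal_lt_ofReal_iff (by norm_num)).2 hkθ
    exact absurd h4 (not_le.2 h5)
  · intro i _
    exact measurable_one.indicator (hBo i).measurableSet

end gen

end Pool.Agent.J6H19.ST
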