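import Pool.Agent.J6H29.ST.Stm
import Pool.Agent.J6H19.ST.Haar

/-!
# Module ST-MEAS of the project ST (helper29): positive measure on the absolute Galois group
-/

set_option autoImplicit false
set_option maxHeartbeats 400000

namespace Pool.Agent.J6H19.ST

open NumberField Filter Topology IsDedekindDomain Pool.Agent.W401.Cheb MeasureTheory

theorem main : Pool.Agent.J6H29.ST.S_Meas := by
  intro K _ _
  letI : MeasurableSpace (GK K) := borel (GK K)
  haveI : BorelSpace (GK K) := ⟨rfl⟩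
  obtain ⟨μ, h1, h2, h3⟩ := exists_haar (G := GK K)
  refine ⟨fun X => μ X ≠ 0, ?_, ?_, ?_, ?_⟩
  · intro X Y hXY hX hY
    exact hX (measure_mono_null hXY hY)
  · intro ι s X hX
    by_contra hcon
    push Not at hcon
    exact hX ((measure_biUnion_null_iff s.countable_toSet).2 fun i hi => hcon i hi)
  · intro X hX h0 H hH
    exact fin_index μ X hX.measurableSet h0 H fun y hy => not_not.1 (hH y hy)
  · intro Good hcl hconj θ hθ k h hk hkθ
    refine exists_pos μ Good hcl hconj θ (meas_le μ Good hcl θ ?_) k h hk hkθ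
    intro U hUn hUo
    obtain ⟨C, hC⟩ : ∃ C : Set (GK K), C = {σ | ∀ u ∈ U, σ * u ∉ Good} := ⟨_, rfl⟩
    rw [← hC]
    have hfin : Finite (GK K ⧸ U) := Subgroup.quotient_finite_of_isOpen _ hUo
    have hC1 : ∀ σ ∈ C, ∀ τ : GK K, τ * σ * τ⁻¹ ∈ C := by
      rw [hC]
      intro σ hσ τ u hu hG
      refine hσ (τ⁻¹ * u * τ) ?_ ?_
      · have := hUn.conj_mem u hu τ⁻¹
        rwa [inv_inv] at this
      · have h1 := hconj _ hG τ⁻¹
        have h2 : τ⁻¹ * (τ * σ * τ⁻¹ * u) * τ⁻¹⁻¹ = σ * (τ⁻¹ * u * τ) := by group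
        rwa [h2] at h1
    have hC2 : ∀ σ ∈ C, ∀ u ∈ U, σ * u ∈ C := by
      rw [hC]
      intro σ hσ u hu u' hu'
      rw [mul_assoc]
      exact hσ _ (U.mul_mem hu hu')
    have hcheb := Pool.Agent.Y142.chebK K U hUo C hC1 hC2
    have h1 : ∃ᶠ N : ℕ in atTop,
        dens (fun v : HeightOneSpectrum (𝓞 K) => ∃ σ ∈ C, IsFrob v σ) N ≤ θ := by
      refine hθ.mono fun N hN => le_trans (Pool.Agent.R401.Eng.dens_le ?_ N) hN
      rintro v ⟨σ, hσ, hv⟩
      refine ⟨σ, hv, ?_⟩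
      rw [hC] at hσ
      have := hσ 1 U.one_mem
      rwa [mul_one] at this
    have h2 := le_of_tendsto_of_frequently hcheb h1
    have h6 : (0 : ℝ) < Nat.card (GK K ⧸ U) := by exact_mod_cast Nat.card_pos
    rwa [div_le_iff₀ h6] at h2

end Pool.Agent.J6H19.ST
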